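import Pool.Agent.GTR.Top

/-!
# The total reality conjecture for convex curves

For all `m ≥ 2`, `1 ≤ d ≤ m - 1`, every convex curve in an `m`-dimensional real space and all
distinct reals `z_1, …, z_N`, `N = d (m - d)`, at which the osculating `(m-d)`-plane is defined, the
Schubert problem of the osculating `(m-d)`-planes has exactly
`f = N! ∏_{i=1}^{d} (i-1)! / (m-d+i-1)!` solutions in `Gr(d, m)`, and all of them are real.
-/

set_option autoImplicit false

open Submodule

namespace Pool.Agent.Results.MP_61ec56_ag.TotalReality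

/-- A continuous curve in `ℝ^m` (coefficient vectors of the real polynomials of degree `< m`) is
convex if its values at any `m` distinct parameters are linearly independent. -/
def ConvexCurve (m : ℕ) (γ : ℝ → Fin m → ℝ) : Prop :=
  Continuous γ ∧ ∀ w : Fin m → ℝ, Function.Injective w → LinearIndependent ℝ (fun i => γ (w i))

/-- The complexification of a real vector. -/
def cxv {m : ℕ} (v : Fin m → ℝ) : Fin m → ℂ := fun i => (v i : ℂ)

/-- The complexified osculating `k`-plane `span {γ(z), γ'(z), …, γ^{(k-1)}(z)}`. -/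
noncomputable def osc (m k : ℕ) (γ : ℝ → Fin m → ℝ) (z : ℝ) : Submodule ℂ (Fin m → ℂ) :=
  span ℂ (Set.range (fun j : Fin k => cxv (iteratedDeriv j γ z)))

/-- The solutions of the Schubert problem: `d`-dimensional complex subspaces which meet the
osculating `(m-d)`-planes at all `z i` nontrivially. -/
def Schubert (m d : ℕ) (γ : ℝ → Fin m → ℝ) {N : ℕ} (z : Fin N → ℝ) :
    Set (Submodule ℂ (Fin m → ℂ)) :=
  {V | Module.finrank ℂ V = d ∧ ∀ i, V ⊓ osc m (m - d) γ (z i) ≠ ⊥}

/-- `V` is the complexification of a real subspace. -/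
def IsRealSub {m : ℕ} (V : Submodule ℂ (Fin m → ℂ)) : Prop :=
  ∃ V0 : Submodule ℝ (Fin m → ℝ), V = span ℂ (cxv '' (V0 : Set (Fin m → ℝ)))

/-- The number `f` of standard Young tableaux of the `d × (m - d)` rectangle, as written in the
problem: `N! ∏_{i=1}^{d} (i-1)! / (m-d+i-1)!`, `N = d (m - d)`. -/
noncomputable def sytFormula (m d : ℕ) : ℚ :=
  ((d * (m - d)).factorial : ℚ) *
    ∏ i ∈ Finset.Icc 1 d, ((i - 1).factorial : ℚ) / ((m - d + i - 1).factorial : ℚ)

theorem aux {k l : ℕ} (hk : 1 ≤ k) (hl : 1 ≤ l) (γ : ℝ → Fin (k + l) → ℝ)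
    (hγ : TR.ConvexCurve (k + l) γ) {N : ℕ} (hN : N = l * k) (z : Fin N → ℝ)
    (hz : Function.Injective z)
    (hosc : ∀ i, Module.finrank ℂ (GTR.osc (k + l) k γ (z i)) = k) :
    GTR.TRl (k + l) l (GTC.FN k l) (fun i => GTR.osc (k + l) k γ (z i)) := by
  have e : k * l = N := by rw [hN, mul_comm]
  subst e
  exact GTR.final hk hl (GTC.mt k l hk hl) hγ hz hosc

theorem schubert_eq {k d : ℕ} (γ : ℝ → Fin (k + d) → ℝ) {N : ℕ} (z : Fin N → ℝ) :
    Schubert (k + d) d γ z = GTR.SP (k + d) d (fun i => GTR.osc (k + d) k γ (z i)) := by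
  unfold Schubert
  rw [Nat.add_sub_cancel]
  rfl

theorem result (m d : ℕ) (hm : 2 ≤ m) (hd : 1 ≤ d) (hdm : d ≤ m - 1) (γ : ℝ → Fin m → ℝ)
    (hγ : ConvexCurve m γ) (z : Fin (d * (m - d)) → ℝ) (hz : Function.Injective z)
    (hosc : ∀ i, Module.finrank ℂ (osc m (m - d) γ (z i)) = m - d) :
    (Schubert m d γ z).Finite ∧
    ((Schubert m d γ z).ncard : ℚ) = sytFormula m d ∧
    ∀ V ∈ Schubert m d γ z, IsRealSub V := by
  obtain ⟨k, rfl⟩ : ∃ k, m = k + d := ⟨m - d, by omega⟩
  have hk : k + d - d = k := Nat.add_sub_cancel k d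
  have hosc' : ∀ i, Module.finrank ℂ (GTR.osc (k + d) k γ (z i)) = k := fun i => by
    have h := hosc i
    rw [hk] at h
    exact h
  obtain ⟨h1, h2, h3⟩ := aux (by omega) hd γ ⟨hγ.1, hγ.2⟩ (by rw [hk]) z hz hosc'
  rw [schubert_eq]
  refine ⟨h1, ?_, h3⟩
  rw [h2, GTR.FN_syt]
  unfold sytFormula
  rw [hk]

end Pool.Agent.Results.MP_61ec56_ag.TotalReality
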